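import Pool.Agent.Results.MP_e848aa_gt.PerfectImages

/-!
# Perfect images of metalindelöf spaces need not be `δθ`-refinable

If there is an infinite cardinal with the free subset property (for instance an `ω`-Erdős cardinal
or a measurable cardinal), then some perfect image of a metalindelöf `T₁` space is not
`δθ`-refinable.  Hence perfect mappings preserve `δθ`-refinability only if there are no cardinals
with the free subset property.
-/

set_option autoImplicit false

namespace Pool.Agent.H865.DT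

open Set Topology Cardinal
open Pool.Agent.Results.MP_e848aa_gt.PerfectImages

universe u

/-- A space is `δθ`-refinable (submetalindelöf) if every open cover `𝒰` has a sequence of open
covers refining `𝒰` such that every point lies in at most countably many members of one of
them. -/
def DeltaThetaRefinable (X : Type u) [TopologicalSpace X] : Prop :=
  ∀ 𝒰 : Set (Set X), (∀ U ∈ 𝒰, IsOpen U) → ⋃₀ 𝒰 = Set.univ →
    ∃ 𝒱 : ℕ → Set (Set X),
      (∀ n, (∀ V ∈ 𝒱 n, IsOpen V) ∧ ⋃₀ 𝒱 n = Set.univ ∧ ∀ V ∈ 𝒱 n, ∃ U ∈ 𝒰, V ⊆ U) ∧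
      ∀ x, ∃ n, {V ∈ 𝒱 n | x ∈ V}.Countable

theorem deltaTheta_of_metalindelof {X : Type u} [TopologicalSpace X]
    (hX : Metalindelof X) : DeltaThetaRefinable X := by
  intro 𝒰 hU hcov
  obtain ⟨𝒱, h1, h2, h3, h4⟩ := hX 𝒰 hU hcov
  exact ⟨fun _ => 𝒱, fun _ => ⟨h1, h2, h4⟩, fun x => ⟨0, h3 x⟩⟩

section

variable {I : Type u}

/-- The index set of the boundary points. -/
abbrev BB (I : Type u) : Type u := {z : Set I // z.Countable ∧ z.Infinite}

/-- The boundary points. -/
abbrev bp (b : BB I) : YPt I := YPt.bd b.1 b.2.1 b.2.2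

/-- The analysis of one open cover refining the standard one. -/
theorem labels {𝒱 : Set (Set (YPt I))} (h1 : ∀ V ∈ 𝒱, IsOpen V) (h2 : ⋃₀ 𝒱 = Set.univ)
    (h4 : ∀ V ∈ 𝒱, ∃ U ∈ range (UU (I := I)), V ⊆ U) :
    ∃ (u : Set (YPt I) → I) (N : BB I → Set (YPt I)) (c : BB I → Finset I)
      (Φ : BB I → Set (YPt I)), (∀ b, N b ∈ 𝒱) ∧ (∀ b, (Φ b).Finite) ∧ (∀ b, (c b : Set I) ⊆ b.1) ∧
      (∀ b, u (N b) ∈ c b) ∧ ∀ b (a : Set I) (ha : a.Countable) (n : ℕ),
        (c b : Set I) \ {u (N b)} ⊆ a → YPt.iso a ha n ∉ Φ b →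
          YPt.iso a ha n ∈ N b := by
  rcases isEmpty_or_nonempty I with hI | hI
  · have : IsEmpty (BB I) := ⟨fun b => b.2.2.nonempty.elim fun i _ => hI.false i⟩
    rcases isEmpty_or_nonempty (Set (YPt I) → I) with h | ⟨⟨u⟩⟩
    · exfalso
      obtain ⟨V, hV, -⟩ := mem_sUnion.1
        (h2 ▸ mem_univ (YPt.iso ∅ countable_empty 0) : YPt.iso ∅ countable_empty 0 ∈ ⋃₀ 𝒱)
      obtain ⟨_, ⟨i, -⟩, -⟩ := h4 V hV
      exact hI.false i
    · exact ⟨u, isEmptyElim, isEmptyElim, isEmptyElim, isEmptyElim, isEmptyElim, isEmptyElim,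
        isEmptyElim, isEmptyElim⟩
  have h5 : ∀ V ∈ 𝒱, ∃ i, V ⊆ UU (I := I) i := by
    intro V hV
    obtain ⟨_, ⟨i, rfl⟩, hi⟩ := h4 V hV
    exact ⟨i, hi⟩
  choose! u hu using h5
  have h6 : ∀ b : BB I, ∃ V ∈ 𝒱, bp b ∈ V := fun b =>
    mem_sUnion.1 (h2 ▸ mem_univ (bp b) : bp b ∈ ⋃₀ 𝒱)
  choose N hN hbN using h6
  have h7 : ∀ b : BB I, ∃ c : Finset I, ∃ Φ : Set (YPt I), Φ.Finite ∧ (c : Set I) ⊆ b.1 ∧
      bp b ∉ Φ ∧ ∀ p : XPt I, (c : Set I) ⊆ p.full → ((c : Set I) \ p.vis).Subsingleton →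
        proj p ∉ Φ → proj p ∈ N b := fun b =>
    fiber_nhds (isOpen_YPt.1 (h1 _ (hN b))) b.1 b.2.1 b.2.2 fun j hj => hbN b
  choose c Φ hΦ hcb _ hmem using h7
  have h8 : ∀ b : BB I, u (N b) ∈ c b := by
    intro b
    by_contra hub
    set w : I := u (N b) with hw
    have hinf : (b.1 \ (insert w (c b : Set I))).Infinite :=
      b.2.2.sdiff ((c b).finite_toSet.insert w)
    let g : I → BB I := fun k => ⟨b.1 \ {w, k}, b.2.1.mono sdiff_subset,
      b.2.2.sdiff (Set.toFinite {w, k})⟩
    have hg : InjOn (fun k => bp (g k)) (b.1 \ (insert w (c b : Set I))) := by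
      intro k hk k' hk' hkk
      by_contra hne
      have h9 : b.1 \ {w, k} = b.1 \ {w, k'} := by
        have := hkk
        simp only [bp, g, YPt.bd.injEq] at this
        exact this
      have h10 : k' ∈ b.1 \ {w, k} := by
        refine ⟨hk'.1, ?_⟩
        rintro (h | h)
        · exact hk'.2 (Or.inl h)
        · exact hne h.symm
      rw [h9] at h10
      exact h10.2 (Or.inr rfl)
    obtain ⟨_, ⟨k, hk, rfl⟩, hkΦ⟩ := (hinf.image hg).exists_notMem_finite (hΦ b)
    obtain ⟨j', hj'⟩ := (g k).2.2.nonempty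
    have h11 := hmem b (XPt.bd (g k).1 (g k).2.1 (g k).2.2 j' hj') ?_ ?_ hkΦ
    · have h12 := hu (N b) (hN b) h11
      exact (show w ∈ b.1 \ {w, k} from h12).2 (Or.inl rfl)
    · intro x hx
      refine ⟨hcb b hx, ?_⟩
      rintro (h | h)
      · exact hub (h ▸ hx)
      · exact hk.2 (Or.inr (h ▸ hx))
    · have h13 : ∀ x, x ∈ (c b : Set I) \ (XPt.bd (g k).1 (g k).2.1 (g k).2.2 j' hj').vis →
          x = j' := by
        rintro x ⟨hx, hx'⟩
        by_contra hne
        refine hx' ⟨⟨hcb b hx, ?_⟩, hne⟩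
        rintro (h | h)
        · exact hub (h ▸ hx)
        · exact hk.2 (Or.inr (h ▸ hx))
      intro x hx y hy
      rw [h13 x hx, h13 y hy]
  refine ⟨u, N, c, Φ, hN, hΦ, hcb, h8, ?_⟩
  intro b a ha n hsub hn
  refine hmem b (XPt.iso a ha n) (subset_univ _) ?_ hn
  have h13 : ∀ x, x ∈ (c b : Set I) \ a → x = u (N b) := by
    rintro x ⟨hx, hx'⟩
    by_contra hne
    exact hx' (hsub ⟨hx, hne⟩)
  intro x hx y hy
  rw [h13 x hx, h13 y hy]

theorem not_countable_of_freeSubsets (hI : FreeSubsets I) : ¬ Countable I := by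
  intro h
  obtain ⟨A, hA, hfree⟩ := hI (fun _ => univ) fun _ => Set.to_countable _
  obtain ⟨a, ha⟩ := hA.nonempty
  exact hfree ∅ (by simp) a ha (by simp) (mem_univ a)

/-- The range of the example is not `δθ`-refinable. -/
theorem not_deltaTheta (hI : FreeSubsets I) : ¬ DeltaThetaRefinable (YPt I) := by
  classical
  intro hY
  have hne := nonempty_of_freeSubsets hI
  obtain ⟨𝒱, h𝒱, hcount⟩ := hY (range UU) (by rintro _ ⟨i, rfl⟩; exact isOpen_UU i)
    (by rw [sUnion_range]; exact cover_UU)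
  choose u N c Φ hN hΦ hcb hu hmem using fun i => labels (h𝒱 i).1 (h𝒱 i).2.1 (h𝒱 i).2.2
  -- the set mappings
  let C : ℕ → Finset I → Set I := fun i s =>
    {t | ∃ b : BB I, u i (N i b) = t ∧ (c i b : Set I) \ {t} = s}
  by_cases hC : ∃ i, ∀ s, (C i s).Countable
  · obtain ⟨i, hi⟩ := hC
    obtain ⟨A, hA, hfree⟩ := hI (C i) hi
    let em := hA.natEmbedding
    let b : BB I := ⟨range fun n => (em n : I), countable_range _,
      infinite_range_of_injective fun n m h => em.injective (Subtype.ext h)⟩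
    have hbA : b.1 ⊆ A := by
      rintro _ ⟨n, rfl⟩
      exact (em n).2
    refine hfree ((c i b).erase (u i (N i b))) ?_ (u i (N i b)) (hbA (hcb i b (hu i b)))
      (Finset.notMem_erase _ _) ⟨b, rfl, by rw [Finset.coe_erase]⟩
    intro x hx
    exact hbA (hcb i b (Finset.mem_of_mem_erase (Finset.mem_coe.1 hx)))
  · push Not at hC
    choose s hs using hC
    -- witnesses for the labels
    have hb : ∀ i, ∀ t : C i (s i), ∃ b : BB I, u i (N i b) = t ∧
        (c i b : Set I) \ {(t : I)} = (s i : Set I) :=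
      fun i t => t.2
    choose b hb1 hb2 using hb
    let a0 : Set I := ⋃ i, (s i : Set I)
    have ha0 : a0.Countable := countable_iUnion fun i => (s i).countable_toSet
    have hak : ∀ k : I, (insert k a0).Countable := fun k => ha0.insert k
    let w : I → YPt I := fun k => YPt.iso (insert k a0) (hak k) 0
    have hw : InjOn w a0ᶜ := by
      intro k hk k' hk' hkk
      simp only [w, YPt.iso.injEq] at hkk
      have h1 : k ∈ insert k' a0 := hkk.1 ▸ mem_insert k a0
      rcases h1 with h1 | h1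
      · exact h1
      · exact absurd h1 hk
    -- the bad points
    let bad : ℕ → Set I := fun i => {k ∈ a0ᶜ | {t : C i (s i) | w k ∉ Φ i (b i t)}.Countable}
    have hbad : ∀ i, (bad i).Finite := by
      intro i
      by_contra hinf
      obtain ⟨D, hD, hDc, hDi⟩ : ∃ D ⊆ bad i, D.Countable ∧ D.Infinite := by
        let em := (show (bad i).Infinite from hinf).natEmbedding
        refine ⟨range fun n => (em n : I), ?_, countable_range _,
          infinite_range_of_injective fun n m h => em.injective (Subtype.ext h)⟩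
        rintro _ ⟨n, rfl⟩
        exact (em n).2
      have h1 : (⋃ k ∈ D, {t : C i (s i) | w k ∉ Φ i (b i t)}).Countable :=
        hDc.biUnion fun k hk => (hD hk).2
      have h2 : ¬ (univ : Set (C i (s i))).Countable := by
        intro h
        exact hs i (by
          have := h.image (Subtype.val)
          rwa [image_univ, Subtype.range_coe] at this)
      obtain ⟨t, ht⟩ : ∃ t : C i (s i), t ∉ ⋃ k ∈ D, {t : C i (s i) | w k ∉ Φ i (b i t)} := by
        by_contra hcon
        push Not at hcon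
        exact h2 (h1.mono fun t _ => hcon t)
      have h3 : w '' D ⊆ Φ i (b i t) := by
        rintro _ ⟨k, hk, rfl⟩
        by_contra hk'
        exact ht (mem_iUnion₂.2 ⟨k, hk, hk'⟩)
      exact (hDi.image (hw.mono fun k hk => (hD hk).1)) ((hΦ i (b i t)).subset h3)
    obtain ⟨k, hk, hkb⟩ : ∃ k ∈ a0ᶜ, ∀ i, k ∉ bad i := by
      by_contra hcon
      push Not at hcon
      apply not_countable_of_freeSubsets hI
      have h1 : (a0 ∪ ⋃ i, bad i).Countable :=
        ha0.union (countable_iUnion fun i => (hbad i).countable)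
      rw [← Set.countable_univ_iff]
      refine h1.mono fun k _ => ?_
      by_cases hk : k ∈ a0
      · exact Or.inl hk
      · obtain ⟨i, hi⟩ := hcon k hk
        exact Or.inr (mem_iUnion.2 ⟨i, hi⟩)
    obtain ⟨i, hi⟩ := hcount (w k)
    refine hkb i ⟨hk, ?_⟩
    -- the labels at the point `w k` are countable
    have h1 : {t : C i (s i) | w k ∉ Φ i (b i t)} ⊆
        (fun t : C i (s i) => (t : I)) ⁻¹' (u i '' {V ∈ 𝒱 i | w k ∈ V}) := by
      intro t ht
      refine ⟨N i (b i t), ⟨hN i _, ?_⟩, hb1 i t⟩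
      refine hmem i (b i t) (insert k a0) (hak k) 0 ?_ ht
      rw [hb1 i t, hb2 i t]
      exact (subset_iUnion (fun i => (s i : Set I)) i).trans (subset_insert k a0)
    exact ((hi.image (u i)).preimage Subtype.val_injective).mono h1

end

end Pool.Agent.H865.DT
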