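import Pool.Agent.H865.CM.Cofinal
import Pool.Agent.H865.CM.T5

/-! Closed mappings with Lindelöf fibres and `δθ`-refinability. -/

set_option autoImplicit false

namespace Pool.Agent.H865.DT

open Set Topology Cardinal
open Pool.Agent.H865.CM
open Pool.Agent.Results.MP_e848aa_gt.TfaeFreeSubset (FreeSubset dcc ClosedUnder clN cl subset_cl
  cl_closed cl_countable cl_open)
open Pool.Agent.Results.MP_e848aa_gt.PerfectImages (NoFree noFree_aleph not_freeSubsets_of_lt)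

universe u

/-- A space is `δθ`-refinable (submetalindelöf). -/
def DTR (X : Type u) [TopologicalSpace X] : Prop :=
  ∀ 𝒰 : Set (Set X), (∀ U ∈ 𝒰, IsOpen U) → ⋃₀ 𝒰 = Set.univ →
    ∃ 𝒱 : ℕ → Set (Set X),
      (∀ n, (∀ V ∈ 𝒱 n, IsOpen V) ∧ ⋃₀ 𝒱 n = Set.univ ∧ ∀ V ∈ 𝒱 n, ∃ U ∈ 𝒰, V ⊆ U) ∧
      ∀ x, ∃ n, {V ∈ 𝒱 n | x ∈ V}.Countable

/-- Indexed form. -/
theorem precise {X : Type u} [TopologicalSpace X] (hX : DTR X) {Λ : Type u} (O : Λ → Set X)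
    (hO : ∀ l, IsOpen (O l)) (hcov : ∀ x, ∃ l, x ∈ O l) :
    ∃ W : ℕ → Λ → Set X, (∀ n l, IsOpen (W n l)) ∧ (∀ n l, W n l ⊆ O l) ∧
      (∀ n x, ∃ l, x ∈ W n l) ∧ ∀ x, ∃ n, {l | x ∈ W n l}.Countable := by
  obtain ⟨𝒱, h1, h2⟩ := hX (range O) (by rintro _ ⟨l, rfl⟩; exact hO l)
    (eq_univ_of_forall fun x => by
      obtain ⟨l, hl⟩ := hcov x
      exact mem_sUnion.2 ⟨O l, ⟨l, rfl⟩, hl⟩)
  have h3 : ∀ n, ∀ V ∈ 𝒱 n, ∃ l, V ⊆ O l := by
    intro n V hV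
    obtain ⟨_, ⟨l, rfl⟩, h⟩ := (h1 n).2.2 V hV
    exact ⟨l, h⟩
  rcases isEmpty_or_nonempty Λ with hΛ | hΛ
  · have hXe : IsEmpty X := ⟨fun x => (hcov x).elim fun l _ => hΛ.false l⟩
    exact ⟨fun _ _ => ∅, fun _ _ => isOpen_empty, fun _ _ => empty_subset _,
      fun _ x => (hXe.false x).elim, fun x => (hXe.false x).elim⟩
  choose! g hg using h3
  refine ⟨fun n l => ⋃₀ {V ∈ 𝒱 n | g n V = l}, fun n l => isOpen_sUnion fun V hV => (h1 n).1 V hV.1,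
    fun n l => sUnion_subset ?_, fun n x => ?_, fun x => ?_⟩
  · rintro V ⟨hV, rfl⟩
    exact hg n V hV
  · obtain ⟨V, hV, hx⟩ := mem_sUnion.1 ((h1 n).2.1 ▸ mem_univ x : x ∈ ⋃₀ 𝒱 n)
    exact ⟨g n V, V, ⟨hV, rfl⟩, hx⟩
  · obtain ⟨n, hn⟩ := h2 x
    refine ⟨n, (hn.image (g n)).mono ?_⟩
    rintro l ⟨V, ⟨hV, rfl⟩, hx⟩
    exact ⟨V, ⟨hV, hx⟩, rfl⟩

theorem tree_case {X Y : Type u} [TopologicalSpace X] [TopologicalSpace Y] {f : X → Y}
    (hX : DTR X) (hf : ClosedMapping f) (hL : ∀ y, IsLindelof (f ⁻¹' {y})) (m : ℕ) {Λ : Type u}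
    (hm : #Λ = ℵ_ m) (U : Λ → Set Y) (hU : ∀ l, IsOpen (U l)) (hcov : ∀ y, ∃ l, y ∈ U l) :
    ∃ G : (Fin (m + 1) → ℕ) → Λ → Set Y, (∀ t l, IsOpen (G t l)) ∧ (∀ t l, G t l ⊆ U l) ∧
      (∀ t y, ∃ l, y ∈ G t l) ∧ ∀ y, ∃ t, {l | y ∈ G t l}.Countable := by
  classical
  have hs := hf.surjective
  have hcl := hf.isClosedMap
  have hfree : ¬ FreeSubsets Λ := not_freeSubsets_of_lt
    (by rw [hm]; exact aleph_lt_aleph.2 (Ordinal.natCast_lt_omega0 m))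
  obtain ⟨F0, hF0, hdcc⟩ := dcc (t5_not_freeSubset hfree)
  obtain ⟨C, hC, hCno⟩ := noFree_aleph m Λ hm.le
  obtain ⟨c, hc, hcc⟩ := cofinal m Λ hm
  let F : Finset Λ → Set Λ := fun G => (F0 G ∪ C G) ∪ ⋃ l ∈ G, c l
  have hF : ∀ G, (F G).Countable := fun G =>
    ((hF0 G).union (hC G)).union (G.countable_toSet.biUnion fun l _ => hc l)
  -- the levels
  let P := {V : Λ → Set X // (∀ l, IsOpen (V l)) ∧ ∀ x, ∃ l, x ∈ V l}
  obtain ⟨st0, a1, a2, a3, a4⟩ := precise hX (fun l => f ⁻¹' U l)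
    (fun l => (hU l).preimage hf.continuous) (fun x => hcov (f x))
  have step : ∀ V : P, ∃ W : ℕ → Λ → Set X, (∀ n l, IsOpen (W n l)) ∧
      (∀ n l, W n l ⊆ f ⁻¹' core f (⋃ l' ∈ c l, V.1 l')) ∧
      (∀ n x, ∃ l, x ∈ W n l) ∧ ∀ x, ∃ n, {l | x ∈ W n l}.Countable := by
    intro V
    refine precise hX (fun l => f ⁻¹' core f (⋃ l' ∈ c l, V.1 l')) (fun l =>
      (isOpen_core hcl (isOpen_biUnion fun l' _ => V.2.1 l')).preimage hf.continuous) ?_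
    intro x
    obtain ⟨r, hr, hr'⟩ := (hL (f x)).elim_countable_subcover V.1 V.2.1 (fun z _ =>
      mem_iUnion.2 (V.2.2 z))
    obtain ⟨l, hl⟩ := hcc r hr
    exact ⟨l, hr'.trans (biUnion_subset_biUnion_left hl)⟩
  choose nx0 b1 b2 b3 b4 using step
  let st : ℕ → P := fun n => ⟨st0 n, a1 n, a3 n⟩
  let nx : P → ℕ → P := fun V n => ⟨nx0 V n, b1 V n, b3 V n⟩
  let L : (ℕ → ℕ) → ℕ → P := fun σ n => Nat.rec (st (σ 0)) (fun n V => nx V (σ (n + 1))) n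
  have hL0 : ∀ σ, L σ 0 = st (σ 0) := fun σ => rfl
  have hLs : ∀ σ n, L σ (n + 1) = nx (L σ n) (σ (n + 1)) := fun σ n => rfl
  have hLc : ∀ σ τ : ℕ → ℕ, ∀ k, (∀ n ≤ k, σ n = τ n) → L σ k = L τ k := by
    intro σ τ k
    induction k with
    | zero =>
      intro h
      rw [hL0, hL0, h 0 le_rfl]
    | succ k ih =>
      intro h
      rw [hLs, hLs, ih fun n hn => h n (hn.trans (Nat.le_succ k)), h (k + 1) le_rfl]
  let S : (ℕ → ℕ) → X → Set Λ := fun σ x => {l | ∃ n ≤ m, x ∈ (L σ n).1 l}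
  have hSo : ∀ σ l, IsOpen {x | l ∈ S σ x} := by
    intro σ l
    have : {x | l ∈ S σ x} = ⋃ n, ⋃ (_ : n ≤ m), (L σ n).1 l := by
      ext x
      simp [S]
    rw [this]
    exact isOpen_iUnion fun n => isOpen_iUnion fun _ => (L σ n).2.1 l
  let N : (ℕ → ℕ) → X → Set Λ := fun σ x => cl F (S σ x)
  have hNcl : ∀ σ x, ClosedUnder F (N σ x) := fun σ x => cl_closed F _
  let O : (ℕ → ℕ) → Λ → Set X := fun σ l => {x | l ∈ N σ x}
  have hO : ∀ σ l, IsOpen (O σ l) := fun σ l => cl_open F (S σ) (hSo σ) l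
  have hpar : ∀ σ l, ∀ l' ∈ c l, O σ l ⊆ O σ l' := by
    intro σ l l' hl' x hx
    have h1 : (({l} : Finset Λ) : Set Λ) ⊆ N σ x := by
      rw [Finset.coe_singleton, singleton_subset_iff]
      exact hx
    exact hNcl σ x _ h1 (Or.inr (mem_iUnion₂.mpr ⟨l, Finset.mem_singleton_self _, hl'⟩))
  have hSO : ∀ σ, ∀ n ≤ m, ∀ l, (L σ n).1 l ⊆ O σ l := fun σ n hn l x hx =>
    subset_cl F (S σ x) ⟨n, hn, hx⟩
  -- finite subsets of fibres
  have key : ∀ σ y n, n ≤ m → ∀ l, ((L σ n).1 l ∩ f ⁻¹' {y}).Nonempty → ∀ T : Finset X,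
      (T : Set X) ⊆ f ⁻¹' {y} → T.card ≤ n →
      ∃ l0, ((L σ 0).1 l0 ∩ f ⁻¹' {y}).Nonempty ∧ O σ l ⊆ O σ l0 ∧ (T : Set X) ⊆ O σ l0 := by
    intro σ y n
    induction n with
    | zero =>
      intro _ l hl T hT hcard
      refine ⟨l, hl, subset_rfl, ?_⟩
      rw [Nat.le_zero, Finset.card_eq_zero] at hcard
      rw [hcard]
      simp
    | succ n ih =>
      rintro hnm l ⟨x, hxl, hxy⟩ T hT hcard
      obtain ⟨s, hsy, hsT⟩ : ∃ s, f s = y ∧ (T.erase s).card ≤ n := by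
        rcases T.eq_empty_or_nonempty with h | ⟨s, hsT⟩
        · obtain ⟨s, rfl⟩ := hs y
          exact ⟨s, rfl, by rw [h]; simp⟩
        · exact ⟨s, hT hsT, by rw [Finset.card_erase_of_mem hsT]; omega⟩
      have hxy' : f x = y := hxy
      have h4 : f ⁻¹' {y} ⊆ ⋃ l' ∈ c l, (L σ n).1 l' := by
        have : f x ∈ core f (⋃ l' ∈ c l, (L σ n).1 l') := b2 (L σ n) (σ (n + 1)) l hxl
        rw [hxy'] at this
        exact this
      obtain ⟨l', hl', hsl'⟩ := mem_iUnion₂.mp (h4 (show s ∈ f ⁻¹' {y} from hsy))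
      obtain ⟨l0, hl0, h5, h6⟩ := ih (Nat.le_of_succ_le hnm) l' ⟨s, hsl', hsy⟩ (T.erase s)
        (fun t ht => hT (Finset.mem_of_mem_erase ht)) hsT
      refine ⟨l0, hl0, (hpar σ l l' hl').trans h5, ?_⟩
      intro t ht
      by_cases hts : t = s
      · rw [hts]
        exact h5 (hSO σ n (Nat.le_of_succ_le hnm) l' hsl')
      · exact h6 (Finset.mem_erase.mpr ⟨hts, ht⟩)
  -- a common label
  have main : ∀ σ y, ∃ l, ((L σ 0).1 l ∩ f ⁻¹' {y}).Nonempty ∧ f ⁻¹' {y} ⊆ O σ l := by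
    intro σ y
    have h1 : ∃ T : Finset X, (T : Set X) ⊆ f ⁻¹' {y} ∧
        ∀ x' ∈ f ⁻¹' {y}, (⋂ x ∈ T, N σ x) ⊆ N σ x' := by
      by_contra hcon
      push Not at hcon
      let St := {T : Finset X // (T : Set X) ⊆ f ⁻¹' {y}}
      have h2 : ∀ T : St, ∃ x' ∈ f ⁻¹' {y}, ¬ (⋂ x ∈ T.1, N σ x) ⊆ N σ x' :=
        fun T => hcon T.1 T.2
      choose g hg hg' using h2
      let T : ℕ → St := fun n => Nat.rec ⟨∅, by simp⟩ (fun _ T => ⟨insert (g T) T.1, by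
        rw [Finset.coe_insert, insert_subset_iff]
        exact ⟨hg T, T.2⟩⟩) n
      have hT : ∀ n, (T (n + 1)).1 = insert (g (T n)) (T n).1 := fun n => rfl
      obtain ⟨k, hk⟩ := hdcc (fun n => ⋂ x ∈ (T n).1, N σ x) (fun n G hG => by
        refine subset_iInter₂ fun x hx => ?_
        exact subset_trans (subset_union_left.trans subset_union_left)
          (hNcl σ x G (hG.trans (biInter_subset_of_mem hx))))
        (fun n => by
          refine subset_iInter₂ fun x hx => ?_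
          have h3 : x ∈ (T (n + 1)).1 := by
            rw [hT]
            exact Finset.mem_insert_of_mem hx
          exact iInter₂_subset x h3)
      apply hg' (T k)
      have h3 : g (T k) ∈ (T (k + 1)).1 := by
        rw [hT]
        exact Finset.mem_insert_self _ _
      exact hk.symm.subset.trans (iInter₂_subset (g (T k)) h3)
    -- a subset of minimal size
    have h1' : ∃ k, ∃ T : Finset X, T.card = k ∧ (T : Set X) ⊆ f ⁻¹' {y} ∧
        ∀ x' ∈ f ⁻¹' {y}, (⋂ x ∈ T, N σ x) ⊆ N σ x' := by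
      obtain ⟨T, hT⟩ := h1
      exact ⟨T.card, T, rfl, hT⟩
    obtain ⟨T, hTk, hT, h2⟩ := Nat.find_spec h1'
    have hmin : ∀ T' : Finset X, (T' : Set X) ⊆ f ⁻¹' {y} →
        (∀ x' ∈ f ⁻¹' {y}, (⋂ x ∈ T', N σ x) ⊆ N σ x') → T.card ≤ T'.card := by
      intro T' h3 h4
      rw [hTk]
      exact Nat.find_min' h1' ⟨T', rfl, h3, h4⟩
    have hTm : T.card ≤ m := by
      by_contra hlt
      push Not at hlt
      have h3 : ∀ x ∈ T, ∃ a, a ∉ N σ x ∧ ∀ z ∈ T, z ≠ x → a ∈ N σ z := by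
        intro x hx
        by_contra hcon
        push Not at hcon
        have h4 : (⋂ z ∈ T.erase x, N σ z) ⊆ N σ x := by
          intro a ha
          by_contra hax
          obtain ⟨z, hz, hzx, haz⟩ := hcon a hax
          exact haz (mem_iInter₂.1 ha z (Finset.mem_erase.2 ⟨hzx, hz⟩))
        have h5 := hmin (T.erase x) (fun t ht => hT (Finset.mem_of_mem_erase ht)) (by
          intro x' hx' a ha
          refine h2 x' hx' (mem_iInter₂.2 fun z hz => ?_)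
          by_cases hzx : z = x
          · rw [hzx]
            exact h4 ha
          · exact mem_iInter₂.1 ha z (Finset.mem_erase.2 ⟨hzx, hz⟩))
        rw [Finset.card_erase_of_mem hx] at h5
        have := Finset.card_pos.2 ⟨x, hx⟩
        omega
      obtain ⟨x0, hx0⟩ := Finset.card_pos.1 (lt_of_le_of_lt (Nat.zero_le m) hlt)
      obtain ⟨a0, -⟩ := h3 x0 hx0
      have hne : Nonempty Λ := ⟨a0⟩
      choose! a ha1 ha2 using h3
      obtain ⟨T', hT'T, hT'c⟩ := Finset.exists_subset_card_eq (Nat.succ_le_of_lt hlt)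
      have hinj : Set.InjOn a (T' : Set X) := by
        intro x hx z hz hxz
        by_contra hne
        have h4 := ha2 x (hT'T hx) z (hT'T hz) (Ne.symm hne)
        rw [hxz] at h4
        exact ha1 z (hT'T hz) h4
      obtain ⟨s, hsA, b, hbA, hbs, hbC⟩ := hCno (T'.image a) (by
        rw [Finset.card_image_of_injOn hinj, hT'c])
      obtain ⟨x, hx, rfl⟩ := Finset.mem_image.1 hbA
      apply ha1 x (hT'T hx)
      refine hNcl σ x s ?_ (Or.inl (Or.inr hbC))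
      intro d hd
      obtain ⟨z, hz, rfl⟩ := Finset.mem_image.1 (hsA hd)
      refine ha2 z (hT'T hz) x (hT'T hx) ?_
      rintro rfl
      exact hbs hd
    obtain ⟨x, hx⟩ := hs y
    obtain ⟨l, hl⟩ := (L σ m).2.2 x
    obtain ⟨l0, h3, -, h4⟩ := key σ y m le_rfl l ⟨x, hl, hx⟩ T hT hTm
    refine ⟨l0, h3, fun x' hx' => ?_⟩
    exact h2 x' hx' (mem_iInter₂.mpr fun x hx => h4 hx)
  let ext : (Fin (m + 1) → ℕ) → ℕ → ℕ := fun t n => if h : n < m + 1 then t ⟨n, h⟩ else 0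
  refine ⟨fun t l => core f (O (ext t) l) ∩ U l,
    fun t l => (isOpen_core hcl (hO (ext t) l)).inter (hU l), fun t l => inter_subset_right,
    fun t y => ?_, fun y => ?_⟩
  · obtain ⟨l, ⟨x, hx, hxy⟩, h⟩ := main (ext t) y
    refine ⟨l, h, ?_⟩
    have hxy' : f x = y := hxy
    have : f x ∈ U l := a2 (ext t 0) l hx
    rwa [hxy'] at this
  · obtain ⟨x, hx⟩ := hs y
    obtain ⟨n0, hn0⟩ := a4 x
    choose cn hcn using fun V : P => b4 V x
    let M : ℕ → P := fun n => Nat.rec (st n0) (fun _ V => nx V (cn V)) n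
    let σ : ℕ → ℕ := fun n => Nat.casesOn n n0 fun n => cn (M n)
    have hM : ∀ n, L σ n = M n := by
      intro n
      induction n with
      | zero => rfl
      | succ n ih =>
        rw [hLs, ih]
    have hMc : ∀ n, {l | x ∈ (M n).1 l}.Countable := by
      intro n
      cases n with
      | zero => exact hn0
      | succ n => exact hcn (M n)
    refine ⟨fun i => σ i, ?_⟩
    have hext : ∀ n ≤ m, L (ext fun i => σ i) n = M n := by
      intro n hn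
      rw [← hM]
      refine hLc _ _ n fun k hk => ?_
      simp only [ext]
      rw [dif_pos (by omega)]
    have hSc : (S (ext fun i => σ i) x).Countable := by
      have : S (ext fun i => σ i) x ⊆ ⋃ n, {l | x ∈ (M n).1 l} := by
        rintro l ⟨n, hn, hl⟩
        rw [hext n hn] at hl
        exact mem_iUnion.2 ⟨n, hl⟩
      exact (countable_iUnion hMc).mono this
    refine (cl_countable F hF _ hSc).mono ?_
    rintro l ⟨hl, -⟩
    exact hl (show x ∈ f ⁻¹' {y} from hx)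

/-- Closed mappings with Lindelöf fibres and `δθ`-refinability: small covers. -/
theorem small_covers {X Y : Type u} [TopologicalSpace X] [TopologicalSpace Y] {f : X → Y}
    (hX : DTR X) (hf : ClosedMapping f) (hL : ∀ y, IsLindelof (f ⁻¹' {y})) (𝒰 : Set (Set Y))
    (hU : ∀ U ∈ 𝒰, IsOpen U) (hcov : ⋃₀ 𝒰 = Set.univ) (hcard : #𝒰 < ℵ_ Ordinal.omega0) :
    ∃ 𝒱 : ℕ → Set (Set Y),
      (∀ n, (∀ V ∈ 𝒱 n, IsOpen V) ∧ ⋃₀ 𝒱 n = Set.univ ∧ ∀ V ∈ 𝒱 n, ∃ U ∈ 𝒰, V ⊆ U) ∧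
      ∀ y, ∃ n, {V ∈ 𝒱 n | y ∈ V}.Countable := by
  classical
  obtain ⟨m, hm⟩ : ∃ m : ℕ, #𝒰 ≤ ℵ_ m := by
    by_contra hcon
    push Not at hcon
    refine absurd hcard (not_lt.2 ?_)
    rw [aleph_limit Ordinal.isSuccLimit_omega0]
    refine ciSup_le' fun i => ?_
    obtain ⟨n, hn⟩ := Ordinal.lt_omega0.1 i.2
    rw [hn]
    exact (hcon n).le
  let Λ : Type u := (ℵ_ (m : Ordinal.{u})).ord.ToType
  have hΛ : #Λ = ℵ_ m := by simp [Λ]
  rw [← hΛ] at hm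
  obtain ⟨e⟩ := hm
  let U : Λ → Set Y := fun l => ⋃₀ {A | ∃ h : A ∈ 𝒰, e ⟨A, h⟩ = l}
  have hUe : ∀ A (h : A ∈ 𝒰), U (e ⟨A, h⟩) = A := by
    intro A h
    refine subset_antisymm (sUnion_subset ?_) (subset_sUnion_of_mem ⟨h, rfl⟩)
    rintro B ⟨hB, hBe⟩
    have := e.injective hBe
    exact (congrArg Subtype.val this).subset
  obtain ⟨G, g1, g2, g3, g4⟩ := tree_case hX hf hL m hΛ U
    (fun l => isOpen_sUnion fun A hA => hU A hA.1) (fun y => by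
      obtain ⟨A, hA, hy⟩ := mem_sUnion.1 (hcov ▸ mem_univ y : y ∈ ⋃₀ 𝒰)
      exact ⟨e ⟨A, hA⟩, by rw [hUe]; exact hy⟩)
  obtain ⟨q, hq⟩ := exists_surjective_nat (Fin (m + 1) → ℕ)
  refine ⟨fun n => {A | ∃ l, (G (q n) l).Nonempty ∧ A = G (q n) l}, fun n => ⟨?_, ?_, ?_⟩,
    fun y => ?_⟩
  · rintro _ ⟨l, -, rfl⟩
    exact g1 _ l
  · refine eq_univ_of_forall fun y => ?_
    obtain ⟨l, hl⟩ := g3 (q n) y
    exact ⟨G (q n) l, ⟨l, ⟨y, hl⟩, rfl⟩, hl⟩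
  · rintro _ ⟨l, ⟨y, hy⟩, rfl⟩
    obtain ⟨A, ⟨hA, rfl⟩, -⟩ := mem_sUnion.1 (g2 _ l hy)
    exact ⟨A, hA, (g2 _ _).trans (hUe A hA).subset⟩
  · obtain ⟨t, ht⟩ := g4 y
    obtain ⟨n, rfl⟩ := hq t
    refine ⟨n, (ht.image (G (q n))).mono ?_⟩
    rintro _ ⟨⟨l, -, rfl⟩, hy⟩
    exact ⟨l, hy, rfl⟩

end Pool.Agent.H865.DT
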